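import Pool.Agent.helper62.VQ.SpecE

set_option autoImplicit false

namespace Pool.Agent.VQE

open scoped MatrixGroups ContDiff Topology UpperHalfPlane
open UpperHalfPlane MeasureTheory Filter Set
open Pool.Agent.RS

lemma NMB_inv (D : SL(2, ℝ)) : (D⁻¹).1 = !![D.1 1 1, -D.1 0 1; -D.1 1 0, D.1 0 0] := by
  rw [Matrix.SpecialLinearGroup.SL2_inv_expl]
  rfl

lemma NMB_r (x : Fin 2 → ℝ) : ∀ j : Fin 2, x 0 * (1 : Matrix (Fin 2) (Fin 2) ℝ) 0 j + x 1 * (1 : Matrix (Fin 2) (Fin 2) ℝ) 1 j = x j := by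
  rw [Fin.forall_fin_two]
  constructor <;> simp

lemma NMB_l (x : Fin 2 → ℝ) : ∀ i : Fin 2, (1 : Matrix (Fin 2) (Fin 2) ℝ) i 0 * x 0 + (1 : Matrix (Fin 2) (Fin 2) ℝ) i 1 * x 1 = x i := by
  rw [Fin.forall_fin_two]
  constructor <;> simp

lemma NMB_mul (D E : SL(2, ℝ)) (i j : Fin 2) : (D * E).1 i j = D.1 i 0 * E.1 0 j + D.1 i 1 * E.1 1 j := by
  have h : (D * E).1 = D.1 * E.1 := rfl
  rw [h, Matrix.mul_apply, Fin.sum_univ_two]

lemma NMB_kJ : kJ.1 = !![0, 1; -1, 0] := rfl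

lemma NMB_kJi : (kJ⁻¹).1 = !![0, -1; 1, 0] := by
  rw [NMB_inv, NMB_kJ]
  simp

lemma NMB_le (D : SL(2, ℝ)) (i j : Fin 2) : |D.1 i j - (1 : Matrix (Fin 2) (Fin 2) ℝ) i j| ≤ nm D := by
  fin_cases i <;> fin_cases j <;> simp [nm]

lemma NMB_of_le (D : SL(2, ℝ)) (r : ℝ) (h : ∀ i j : Fin 2, |D.1 i j - (1 : Matrix (Fin 2) (Fin 2) ℝ) i j| ≤ r) : nm D ≤ r := by
  have h00 := h 0 0
  have h01 := h 0 1
  have h10 := h 1 0
  have h11 := h 1 1
  simp at h00 h01 h10 h11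
  unfold nm
  exact max_le (max_le h00 h01) (max_le h10 h11)

lemma NMB_nonneg (D : SL(2, ℝ)) : 0 ≤ nm D := le_trans (abs_nonneg _) (NMB_le D 0 0)

lemma NMB_zero (D : SL(2, ℝ)) : nm D = 0 ↔ D = 1 := by
  constructor
  · intro h
    apply Subtype.ext
    ext i j
    have h1 := NMB_le D i j
    rw [h] at h1
    have h2 := abs_nonpos_iff.mp h1
    have h3 : D.1 i j = (1 : Matrix (Fin 2) (Fin 2) ℝ) i j := by linarith
    exact h3
  · intro h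
    subst h
    refine le_antisymm ?_ (NMB_nonneg _)
    refine NMB_of_le _ _ ?_
    intro i j
    have h1 : (1 : SL(2, ℝ)).1 = 1 := rfl
    rw [h1]
    simp

lemma NMB_ninv (D : SL(2, ℝ)) : nm D⁻¹ = nm D := by
  unfold nm
  rw [NMB_inv]
  simp only [Matrix.of_apply, Matrix.cons_val', Matrix.cons_val_zero, Matrix.cons_val_one, Matrix.cons_val_fin_one, abs_neg]
  ac_rfl

lemma NMB_c1 (D : SL(2, ℝ)) : nm (kJ * D * kJ⁻¹) = nm D := by
  unfold nm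
  have e (i j : Fin 2) : (kJ * D * kJ⁻¹).1 i j = !![D.1 1 1, -D.1 1 0; -D.1 0 1, D.1 0 0] i j := by
    rw [NMB_mul, NMB_mul, NMB_mul, NMB_kJ, NMB_kJi]
    fin_cases i <;> fin_cases j <;> simp
  rw [e, e, e, e]
  simp only [Matrix.of_apply, Matrix.cons_val', Matrix.cons_val_zero, Matrix.cons_val_one, Matrix.cons_val_fin_one, abs_neg]
  ac_rfl

lemma NMB_c2 (D : SL(2, ℝ)) : nm (kJ⁻¹ * D * kJ) = nm D := by
  unfold nm
  have e (i j : Fin 2) : (kJ⁻¹ * D * kJ).1 i j = !![D.1 1 1, -D.1 1 0; -D.1 0 1, D.1 0 0] i j := by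
    rw [NMB_mul, NMB_mul, NMB_mul, NMB_kJ, NMB_kJi]
    fin_cases i <;> fin_cases j <;> simp
  rw [e, e, e, e]
  simp only [Matrix.of_apply, Matrix.cons_val', Matrix.cons_val_zero, Matrix.cons_val_one, Matrix.cons_val_fin_one, abs_neg]
  ac_rfl

lemma NMB_sub (D E : SL(2, ℝ)) : nm (D * E) ≤ nm D + nm E + 2 * nm D * nm E := by
  refine NMB_of_le _ _ ?_
  intro i j
  have hD := NMB_nonneg D
  have hE := NMB_nonneg E
  have h0 : (D * E).1 i j - (1 : Matrix (Fin 2) (Fin 2) ℝ) i j = (D.1 i j - (1 : Matrix (Fin 2) (Fin 2) ℝ) i j) +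
      (E.1 i j - (1 : Matrix (Fin 2) (Fin 2) ℝ) i j) +
      (D.1 i 0 - (1 : Matrix (Fin 2) (Fin 2) ℝ) i 0) * (E.1 0 j - (1 : Matrix (Fin 2) (Fin 2) ℝ) 0 j) +
      (D.1 i 1 - (1 : Matrix (Fin 2) (Fin 2) ℝ) i 1) * (E.1 1 j - (1 : Matrix (Fin 2) (Fin 2) ℝ) 1 j) := by
    rw [NMB_mul]
    have r1 := NMB_r (fun k => D.1 i k) j
    have r2 := NMB_l (fun k => E.1 k j) i
    have r3 := NMB_l (fun k => (1 : Matrix (Fin 2) (Fin 2) ℝ) k j) i
    linear_combination r1 + r2 - r3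
  rw [h0]
  have h1 := NMB_le D i j
  have h2 := NMB_le E i j
  have h3 : |(D.1 i 0 - (1 : Matrix (Fin 2) (Fin 2) ℝ) i 0) * (E.1 0 j - (1 : Matrix (Fin 2) (Fin 2) ℝ) 0 j)| ≤ nm D * nm E := by
    rw [abs_mul]
    exact mul_le_mul (NMB_le D i 0) (NMB_le E 0 j) (abs_nonneg _) hD
  have h4 : |(D.1 i 1 - (1 : Matrix (Fin 2) (Fin 2) ℝ) i 1) * (E.1 1 j - (1 : Matrix (Fin 2) (Fin 2) ℝ) 1 j)| ≤ nm D * nm E := by
    rw [abs_mul]
    exact mul_le_mul (NMB_le D i 1) (NMB_le E 1 j) (abs_nonneg _) hD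
  rw [abs_le] at h1 h2 h3 h4 ⊢
  constructor
  · linarith [h1.1, h2.1, h3.1, h4.1]
  · linarith [h1.2, h2.2, h3.2, h4.2]

lemma NMB_cont : Continuous nm := by
  have h (i j : Fin 2) : Continuous (fun D : SL(2, ℝ) => D.1 i j) :=
    (continuous_apply j).comp ((continuous_apply i).comp continuous_subtype_val)
  unfold nm
  exact (((h 0 0).sub continuous_const).abs.max (h 0 1).abs).max ((h 1 0).abs.max ((h 1 1).sub continuous_const).abs)

lemma NMB_dg (b c : ℝ) (hb : |b| ≤ 1 / 8) (hc : |c| ≤ 1 / 8) : nm (dg b c) ≤ max |b| |c| := by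
  have hbc : |b * c| ≤ max |b| |c| := by
    rw [abs_mul]
    have h1 : |b| * |c| ≤ |b| * 1 := mul_le_mul_of_nonneg_left (by linarith) (abs_nonneg _)
    exact le_trans h1 (by rw [mul_one]; exact le_max_left _ _)
  have hbc2 : |b * c| ≤ 1 / 64 := by
    rw [abs_mul]
    calc |b| * |c| ≤ (1 / 8) * (1 / 8) := mul_le_mul hb hc (abs_nonneg _) (by norm_num)
      _ = 1 / 64 := by norm_num
  have hpos : 0 ≤ 1 + b * c := by
    have := (abs_le.mp hbc2).1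
    linarith
  have hs0 : 0 ≤ √(1 + b * c) := Real.sqrt_nonneg _
  have hs : |√(1 + b * c) - 1| ≤ |b * c| := by
    have h1 : (√(1 + b * c) - 1) * (√(1 + b * c) + 1) = b * c := by
      have := Real.mul_self_sqrt hpos
      linarith
    have h1a : |b * c| = |√(1 + b * c) - 1| * |√(1 + b * c) + 1| := by rw [← abs_mul, h1]
    rw [h1a]
    have h2 : 1 ≤ |√(1 + b * c) + 1| := by
      rw [abs_of_nonneg (by linarith)]
      linarith
    calc |√(1 + b * c) - 1| = |√(1 + b * c) - 1| * 1 := (mul_one _).symm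
      _ ≤ _ := mul_le_mul_of_nonneg_left h2 (abs_nonneg _)
  have hd : (dg b c).1 = !![√(1 + b * c), b; c, √(1 + b * c)] := by
    unfold dg
    rw [dif_pos hpos]
  unfold nm
  rw [hd]
  simp only [Matrix.of_apply, Matrix.cons_val', Matrix.cons_val_zero, Matrix.cons_val_one, Matrix.cons_val_fin_one]
  exact max_le (max_le (hs.trans hbc) (le_max_left _ _)) (max_le (le_max_right _ _) (hs.trans hbc))

lemma NMB_d1 (g g' : SL(2, ℝ)) (K : ℝ) (hg : ∀ i j, |g.1 i j| ≤ K) : dist (mt g) (mt g') ≤ 2 * K * nm (g⁻¹ * g') := by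
  have hK : 0 ≤ K := le_trans (abs_nonneg _) (hg 0 0)
  have hn := NMB_nonneg (g⁻¹ * g')
  have hr : 0 ≤ 2 * K * nm (g⁻¹ * g') := by positivity
  rw [dist_pi_le_iff hr]
  intro i
  rw [dist_pi_le_iff hr]
  intro j
  have h0 : g' = g * (g⁻¹ * g') := by group
  have h1 : mt g i j - mt g' i j = -(g.1 i 0 * ((g⁻¹ * g').1 0 j - (1 : Matrix (Fin 2) (Fin 2) ℝ) 0 j) +
      g.1 i 1 * ((g⁻¹ * g').1 1 j - (1 : Matrix (Fin 2) (Fin 2) ℝ) 1 j)) := by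
    have h2 : mt g' i j = (g * (g⁻¹ * g')).1 i j := by rw [← h0]; rfl
    rw [h2, NMB_mul]
    have r1 := NMB_r (fun k => g.1 i k) j
    unfold mt
    linear_combination - r1
  rw [Real.dist_eq, h1, abs_neg]
  have h3 : |g.1 i 0 * ((g⁻¹ * g').1 0 j - (1 : Matrix (Fin 2) (Fin 2) ℝ) 0 j)| ≤ K * nm (g⁻¹ * g') := by
    rw [abs_mul]
    exact mul_le_mul (hg i 0) (NMB_le _ 0 j) (abs_nonneg _) hK
  have h4 : |g.1 i 1 * ((g⁻¹ * g').1 1 j - (1 : Matrix (Fin 2) (Fin 2) ℝ) 1 j)| ≤ K * nm (g⁻¹ * g') := by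
    rw [abs_mul]
    exact mul_le_mul (hg i 1) (NMB_le _ 1 j) (abs_nonneg _) hK
  exact (abs_add_le _ _).trans (by linarith)

lemma NMB_d2 (g g' : SL(2, ℝ)) (K : ℝ) (hg : ∀ i j, |g.1 i j| ≤ K) : nm (g⁻¹ * g') ≤ 2 * K * dist (mt g) (mt g') := by
  have hK : 0 ≤ K := le_trans (abs_nonneg _) (hg 0 0)
  have hi (i j : Fin 2) : |(g⁻¹).1 i j| ≤ K := by
    rw [NMB_inv]
    fin_cases i <;> fin_cases j
    · exact hg 1 1
    · have := hg 0 1
      simpa using this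
    · have := hg 1 0
      simpa using this
    · exact hg 0 0
  have hd (i j : Fin 2) : |g'.1 i j - g.1 i j| ≤ dist (mt g) (mt g') := by
    have h1 : dist (mt g i j) (mt g' i j) ≤ dist (mt g) (mt g') :=
      (dist_le_pi_dist (mt g i) (mt g' i) j).trans (dist_le_pi_dist (mt g) (mt g') i)
    rw [Real.dist_eq, abs_sub_comm] at h1
    exact h1
  refine NMB_of_le _ _ ?_
  intro i j
  have h1 : (g⁻¹ * g').1 i j - (1 : Matrix (Fin 2) (Fin 2) ℝ) i j = (g⁻¹).1 i 0 * (g'.1 0 j - g.1 0 j) + (g⁻¹).1 i 1 * (g'.1 1 j - g.1 1 j) := by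
    have h2 : (1 : Matrix (Fin 2) (Fin 2) ℝ) i j = (g⁻¹ * g).1 i j := by
      rw [inv_mul_cancel]
      rfl
    rw [h2, NMB_mul, NMB_mul]
    ring
  rw [h1]
  have h3 : |(g⁻¹).1 i 0 * (g'.1 0 j - g.1 0 j)| ≤ K * dist (mt g) (mt g') := by
    rw [abs_mul]
    exact mul_le_mul (hi i 0) (hd 0 j) (abs_nonneg _) hK
  have h4 : |(g⁻¹).1 i 1 * (g'.1 1 j - g.1 1 j)| ≤ K * dist (mt g) (mt g') := by
    rw [abs_mul]
    exact mul_le_mul (hi i 1) (hd 1 j) (abs_nonneg _) hK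
  exact (abs_add_le _ _).trans (by linarith)

theorem NMB_proof : NMB_stmt :=
  ⟨NMB_nonneg, NMB_zero, NMB_ninv, NMB_c1, NMB_c2, NMB_sub, NMB_cont, NMB_dg,
    fun g g' K hg _ => ⟨NMB_d1 g g' K hg, NMB_d2 g g' K hg⟩⟩

end Pool.Agent.VQE
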